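import Pool.Agent.N708.MX.Stm

/-!
# MX/RANK: almost invariant vectors of `K` are almost stable under `h` (written by helper50)
-/

set_option autoImplicit false

namespace Pool.Agent.N50.MX

open Filter Topology
open Pool.Agent.N708.MX

section ap

variable {l : Filter ℕ} {E : ℕ → Type} [∀ n, NormedAddCommGroup (E n)]
  [∀ n, InnerProductSpace ℂ (E n)] [∀ n, CompleteSpace (E n)]

/-- two sequences of unitary operators are close -/
def Ap (l : Filter ℕ) (E : ℕ → Type) [∀ n, NormedAddCommGroup (E n)]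
    [∀ n, InnerProductSpace ℂ (E n)] [∀ n, CompleteSpace (E n)]
    (X Y : ∀ n, unitary (E n →L[ℂ] E n)) : Prop :=
  Tendsto (fun n => ‖(X n : E n →L[ℂ] E n) - (Y n : E n →L[ℂ] E n)‖) l (𝓝 0)

theorem Ap.ev {X Y : ∀ n, unitary (E n →L[ℂ] E n)} (h : Ap l E X Y) {ε : ℝ} (hε : 0 < ε) :
    ∀ᶠ n in l, ‖(X n : E n →L[ℂ] E n) - (Y n : E n →L[ℂ] E n)‖ ≤ ε := by
  have := (tendsto_order.1 h).2 ε hε
  filter_upwards [this] with n hn using hn.le

theorem Ap.of_le {X Y : ∀ n, unitary (E n →L[ℂ] E n)} {f : ℕ → ℝ} (hf : Tendsto f l (𝓝 0))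
    (h : ∀ n, ‖(X n : E n →L[ℂ] E n) - (Y n : E n →L[ℂ] E n)‖ ≤ f n) : Ap l E X Y :=
  squeeze_zero (fun n => norm_nonneg _) h hf

theorem Ap.refl (X : ∀ n, unitary (E n →L[ℂ] E n)) : Ap l E X X :=
  Ap.of_le (f := fun _ => 0) tendsto_const_nhds fun n => by simp

theorem Ap.symm {X Y : ∀ n, unitary (E n →L[ℂ] E n)} (h : Ap l E X Y) : Ap l E Y X :=
  Ap.of_le h fun n => by rw [norm_sub_rev]

theorem Ap.trans {X Y Z : ∀ n, unitary (E n →L[ℂ] E n)} (h : Ap l E X Y) (h' : Ap l E Y Z) :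
    Ap l E X Z := by
  refine Ap.of_le (f := fun n => ‖(X n : E n →L[ℂ] E n) - Y n‖ +
    ‖(Y n : E n →L[ℂ] E n) - Z n‖) (by simpa using h.add h') fun n => ?_
  exact norm_sub_le_norm_sub_add_norm_sub _ _ _

theorem Ap.mul_left {X Y : ∀ n, unitary (E n →L[ℂ] E n)} (h : Ap l E X Y)
    (Z : ∀ n, unitary (E n →L[ℂ] E n)) : Ap l E (fun n => Z n * X n) (fun n => Z n * Y n) := by
  refine Ap.of_le h fun n => ?_
  rw [Submonoid.coe_mul, Submonoid.coe_mul, ← mul_sub, CStarRing.norm_coe_unitary_mul]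

theorem Ap.mul_right {X Y : ∀ n, unitary (E n →L[ℂ] E n)} (h : Ap l E X Y)
    (Z : ∀ n, unitary (E n →L[ℂ] E n)) : Ap l E (fun n => X n * Z n) (fun n => Y n * Z n) := by
  refine Ap.of_le h fun n => ?_
  rw [Submonoid.coe_mul, Submonoid.coe_mul, ← sub_mul, CStarRing.norm_mul_coe_unitary]

theorem Ap.mul {X Y X' Y' : ∀ n, unitary (E n →L[ℂ] E n)} (h : Ap l E X Y)
    (h' : Ap l E X' Y') : Ap l E (fun n => X n * X' n) (fun n => Y n * Y' n) :=
  (h.mul_right X').trans (h'.mul_left Y)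

theorem Ap.cancel {X Y Z : ∀ n, unitary (E n →L[ℂ] E n)}
    (h : Ap l E (fun n => Z n * X n) (fun n => Z n * Y n)) : Ap l E X Y := by
  have := h.mul_left (fun n => (Z n)⁻¹)
  simpa using this

variable {G : Type} [Group G] {U : ∀ n, G → unitary (E n →L[ℂ] E n)}

theorem AR.ap (hU : AR l E U) (g g' : G) :
    Ap l E (fun n => U n (g * g')) (fun n => U n g * U n g') := hU g g'

theorem AR.one (hU : AR l E U) : Ap l E (fun n => U n 1) (fun _ => 1) := by
  have h := AR.ap hU 1 1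
  have h2 : Ap l E (fun n => U n 1 * U n 1) (fun n => U n 1 * 1) := by
    have := h.symm
    simpa using this
  exact h2.cancel

theorem AR.inv (hU : AR l E U) (g : G) :
    Ap l E (fun n => U n g⁻¹) (fun n => (U n g)⁻¹) := by
  have h := AR.ap hU g g⁻¹
  have h2 : Ap l E (fun n => U n g * U n g⁻¹) (fun n => U n g * (U n g)⁻¹) := by
    have h3 := h.symm
    rw [mul_inv_cancel] at h3
    have h4 := h3.trans (AR.one hU)
    simpa using h4
  exact h2.cancel

end ap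

/-- the norm is preserved -/
theorem nrm {H : Type} [NormedAddCommGroup H] [InnerProductSpace ℂ H] [CompleteSpace H]
    (u : unitary (H →L[ℂ] H)) (v : H) : ‖(u : H →L[ℂ] H) v‖ = ‖v‖ :=
  ContinuousLinearMap.norm_map_of_mem_unitary u.2 v

theorem opb {H : Type} [NormedAddCommGroup H] [InnerProductSpace ℂ H] [CompleteSpace H]
    (u u' : unitary (H →L[ℂ] H)) (v : H) : ‖(u : H →L[ℂ] H) v - (u' : H →L[ℂ] H) v‖ ≤
      ‖(u : H →L[ℂ] H) - (u' : H →L[ℂ] H)‖ * ‖v‖ := by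
  rw [← sub_apply]
  exact ContinuousLinearMap.le_opNorm _ _

theorem inv_apply {H : Type} [NormedAddCommGroup H] [InnerProductSpace ℂ H] [CompleteSpace H]
    (u : unitary (H →L[ℂ] H)) (v : H) : ‖((u⁻¹ : unitary (H →L[ℂ] H)) : H →L[ℂ] H) v - v‖ =
      ‖(u : H →L[ℂ] H) v - v‖ := by
  have h1 : ((u : H →L[ℂ] H)) (((u⁻¹ : unitary (H →L[ℂ] H)) : H →L[ℂ] H) v) = v := by
    have : ((u * u⁻¹ : unitary (H →L[ℂ] H)) : H →L[ℂ] H) v = v := by
      rw [mul_inv_cancel]; rfl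
    exact this
  have h2 := nrm u (((u⁻¹ : unitary (H →L[ℂ] H)) : H →L[ℂ] H) v - v)
  rw [← h2, map_sub, h1, norm_sub_rev]

theorem t_rank (hG : S_GAP) (hS : S_SUB) : S_RANK := by
  intro K G _ _ φ ι h k γ hT hγ hrel
  obtain ⟨θ, hθ, δ, R, hR, hgap⟩ := hG K k γ hT hγ
  refine ⟨θ, hθ, ?_⟩
  intro l E _ _ _ _ U hU
  obtain ⟨ρ, hρ⟩ : ∃ ρ : ∀ n, FreeGroup (Fin k) →* unitary (E n →L[ℂ] E n),
      ∀ n s, ρ n (FreeGroup.of s) = U n (ι (γ (FreeGroup.of s))) :=
    ⟨fun n => FreeGroup.lift (fun s => U n (ι (γ (FreeGroup.of s)))), fun n s => by simp⟩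
  choose V hV1 hV2 using fun n => hgap (E n) (ρ n)
  -- the words
  have hw : ∀ w : FreeGroup (Fin k), Ap l E (fun n => ρ n w) (fun n => U n (ι (γ w))) := by
    intro w
    induction w using FreeGroup.induction_on with
    | C1 =>
      simp only [map_one]
      exact (AR.one hU).symm
    | of s =>
      simp only [hρ]
      exact Ap.refl _
    | inv_of s _ =>
      simp only [map_inv, hρ]
      exact (AR.inv hU _).symm
    | mul x y hx hy =>
      simp only [map_mul]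
      exact (hx.mul hy).trans (AR.ap hU _ _).symm
  -- almost invariance for the generators
  have hstar : ∀ ε : ℝ, 0 < ε → ∀ᶠ n in l, ∀ v ∈ V n,
      ∑ s, ‖(ρ n (FreeGroup.of s) : E n →L[ℂ] E n) v - v‖ ^ 2 ≤ ε * ‖v‖ ^ 2 := by
    intro ε hε
    have h1 : ∀ᶠ n in l, ∀ w ∈ R ε, ‖(ρ n w : E n →L[ℂ] E n) - 1‖ ≤ δ ε := by
      rw [Filter.eventually_all_finset]
      intro w hwR
      have h2 : Ap l E (fun n => ρ n w) (fun _ => 1) := by
        have h3 := hw w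
        rw [(hR ε hε).2 w hwR, map_one] at h3
        exact h3.trans (AR.one hU)
      exact h2.ev (hR ε hε).1
    filter_upwards [h1] with n hn
    exact hV2 n ε hε hn
  have hall : ∀ w : FreeGroup (Fin k), ∀ ε : ℝ, 0 < ε → ∀ᶠ n in l, ∀ v ∈ V n,
      ‖(ρ n w : E n →L[ℂ] E n) v - v‖ ≤ ε * ‖v‖ := by
    intro w
    have hof : ∀ s : Fin k, ∀ ε : ℝ, 0 < ε → ∀ᶠ n in l, ∀ v ∈ V n,
        ‖(ρ n (FreeGroup.of s) : E n →L[ℂ] E n) v - v‖ ≤ ε * ‖v‖ := by
      intro s ε hε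
      filter_upwards [hstar (ε ^ 2) (by positivity)] with n hn v hv
      have h1 := hn v hv
      have h2 : ‖(ρ n (FreeGroup.of s) : E n →L[ℂ] E n) v - v‖ ^ 2 ≤ (ε * ‖v‖) ^ 2 := by
        rw [mul_pow]
        refine le_trans ?_ h1
        exact Finset.single_le_sum (f := fun s =>
          ‖(ρ n (FreeGroup.of s) : E n →L[ℂ] E n) v - v‖ ^ 2) (fun _ _ => sq_nonneg _)
          (Finset.mem_univ s)
      exact le_of_pow_le_pow_left₀ two_ne_zero (by positivity) h2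
    induction w using FreeGroup.induction_on with
    | C1 =>
      intro ε hε
      refine Eventually.of_forall fun n v _ => ?_
      rw [map_one]
      have : ((1 : unitary (E n →L[ℂ] E n)) : E n →L[ℂ] E n) v = v := rfl
      rw [this, sub_self, norm_zero]
      positivity
    | of s => exact hof s
    | inv_of s _ =>
      intro ε hε
      filter_upwards [hof s ε hε] with n hn v hv
      rw [map_inv, inv_apply]
      exact hn v hv
    | mul x y hx hy =>
      intro ε hε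
      filter_upwards [hx (ε / 2) (half_pos hε), hy (ε / 2) (half_pos hε)] with n hn hn' v hv
      have h1 := hn v hv
      have h2 := hn' v hv
      rw [map_mul]
      have e : ((ρ n x * ρ n y : unitary (E n →L[ℂ] E n)) : E n →L[ℂ] E n) v - v =
          (ρ n x : E n →L[ℂ] E n) ((ρ n y : E n →L[ℂ] E n) v - v) +
          ((ρ n x : E n →L[ℂ] E n) v - v) := by
        rw [map_sub]
        have : ((ρ n x * ρ n y : unitary (E n →L[ℂ] E n)) : E n →L[ℂ] E n) v =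
          (ρ n x : E n →L[ℂ] E n) ((ρ n y : E n →L[ℂ] E n) v) := rfl
        rw [this]
        abel
      rw [e]
      refine (norm_add_le _ _).trans ?_
      rw [nrm]
      linarith
  -- second property
  have hsec : ∀ (a : K) (ε : ℝ), 0 < ε → ∀ᶠ n in l, ∀ v ∈ V n,
      ‖(U n (ι a) : E n →L[ℂ] E n) v - v‖ ≤ ε * ‖v‖ := by
    intro a ε hε
    obtain ⟨w, rfl⟩ := hγ a
    filter_upwards [hall w (ε / 2) (half_pos hε), (hw w).symm.ev (half_pos hε)] with n h1 h2 v hv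
    have h3 := h1 v hv
    have h4 := opb (U n (ι (γ w))) (ρ n w) v
    have h5 := norm_sub_le_norm_sub_add_norm_sub ((U n (ι (γ w)) : E n →L[ℂ] E n) v)
      ((ρ n w : E n →L[ℂ] E n) v) v
    have h6 : ‖(U n (ι (γ w)) : E n →L[ℂ] E n) - (ρ n w : E n →L[ℂ] E n)‖ * ‖v‖ ≤
        ε / 2 * ‖v‖ := mul_le_mul_of_nonneg_right h2 (norm_nonneg _)
    linarith
  -- fourth property
  have hfour : ∀ ε : ℝ, 0 < ε → ∀ᶠ n in l, ∀ v ∈ V n, ∃ w ∈ V n,
      ‖(U n h : E n →L[ℂ] E n) v - w‖ ≤ ε * ‖v‖ := by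
    have hgen : ∀ (a : K) (ε : ℝ), 0 < ε → ∀ᶠ n in l, ∀ v ∈ V n,
        ‖(U n (ι a) : E n →L[ℂ] E n) ((U n h : E n →L[ℂ] E n) v) -
          (U n h : E n →L[ℂ] E n) v‖ ≤ ε * ‖v‖ := by
      intro a ε hε
      have h1 : Ap l E (fun n => U n (ι a) * U n h) (fun n => U n h * U n (ι (φ a))) := by
        have h2 := (AR.ap hU (ι a) h).symm
        have h3 : ι a * h = h * ι (φ a) := by rw [← hrel a]; group
        rw [h3] at h2
        exact h2.trans (AR.ap hU _ _)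
      filter_upwards [h1.ev (half_pos hε), hsec (φ a) (ε / 2) (half_pos hε)] with n h2 h3 v hv
      have h4 := h3 v hv
      have h5 := opb (U n (ι a) * U n h) (U n h * U n (ι (φ a))) v
      have e1 : ((U n (ι a) * U n h : unitary (E n →L[ℂ] E n)) : E n →L[ℂ] E n) v =
        (U n (ι a) : E n →L[ℂ] E n) ((U n h : E n →L[ℂ] E n) v) := rfl
      have e2 : ((U n h * U n (ι (φ a)) : unitary (E n →L[ℂ] E n)) : E n →L[ℂ] E n) v =
        (U n h : E n →L[ℂ] E n) ((U n (ι (φ a)) : E n →L[ℂ] E n) v) := rfl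
      rw [e1, e2] at h5
      have h6 := norm_sub_le_norm_sub_add_norm_sub
        ((U n (ι a) : E n →L[ℂ] E n) ((U n h : E n →L[ℂ] E n) v))
        ((U n h : E n →L[ℂ] E n) ((U n (ι (φ a)) : E n →L[ℂ] E n) v))
        ((U n h : E n →L[ℂ] E n) v)
      rw [← map_sub (U n h : E n →L[ℂ] E n), nrm] at h6
      have h7 := mul_le_mul_of_nonneg_right h2 (norm_nonneg v)
      linarith
    intro ε hε
    obtain ⟨η, hη⟩ : ∃ η : ℝ, η = ε * √(θ / (4 * (k + 1))) := ⟨_, rfl⟩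
    have hη0 : 0 < η := by rw [hη]; positivity
    have hη2 : 4 * (k + 1) * η ^ 2 = θ * ε ^ 2 := by
      rw [hη, mul_pow, Real.sq_sqrt (by positivity)]
      field_simp
    have hev : ∀ᶠ n in l, ∀ s : Fin k, ∀ v ∈ V n,
        ‖(U n (ι (γ (FreeGroup.of s))) : E n →L[ℂ] E n) ((U n h : E n →L[ℂ] E n) v) -
          (U n h : E n →L[ℂ] E n) v‖ ≤ η * ‖v‖ ∧
        ‖(U n (ι (γ (FreeGroup.of s))) : E n →L[ℂ] E n) v - v‖ ≤ η * ‖v‖ := by
      rw [Filter.eventually_all]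
      intro s
      filter_upwards [hgen (γ (FreeGroup.of s)) η hη0, hsec (γ (FreeGroup.of s)) η hη0]
        with n h1 h2 v hv
      exact ⟨h1 v hv, h2 v hv⟩
    filter_upwards [hev] with n hn v hv
    have : CompleteSpace (V n) := FiniteDimensional.complete ℂ (V n)
    obtain ⟨x, hx, y, hy, hxy⟩ :=
      (V n).exists_add_mem_mem_orthogonal ((U n h : E n →L[ℂ] E n) v)
    refine ⟨x, hx, ?_⟩
    have hpy : ‖v‖ ^ 2 = ‖x‖ ^ 2 + ‖y‖ ^ 2 := by
      rw [← nrm (U n h) v, hxy]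
      have h0 : inner ℂ x y = 0 := hy x hx
      have := norm_add_sq_eq_norm_sq_add_norm_sq_of_inner_eq_zero x y h0
      nlinarith
    have hxv : ‖x‖ ≤ ‖v‖ := by
      apply le_of_pow_le_pow_left₀ two_ne_zero (norm_nonneg _)
      nlinarith [sq_nonneg ‖y‖]
    have hyb := hV1 n y hy
    have hterm : ∀ s : Fin k, ‖(ρ n (FreeGroup.of s) : E n →L[ℂ] E n) y - y‖ ^ 2 ≤
        4 * η ^ 2 * ‖v‖ ^ 2 := by
      intro s
      rw [hρ]
      obtain ⟨h1, -⟩ := hn s v hv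
      obtain ⟨-, h2⟩ := hn s x hx
      have e : (U n (ι (γ (FreeGroup.of s))) : E n →L[ℂ] E n) y - y =
          ((U n (ι (γ (FreeGroup.of s))) : E n →L[ℂ] E n) ((U n h : E n →L[ℂ] E n) v) -
          (U n h : E n →L[ℂ] E n) v) -
          ((U n (ι (γ (FreeGroup.of s))) : E n →L[ℂ] E n) x - x) := by
        rw [hxy, map_add]
        abel
      have h3 : ‖(U n (ι (γ (FreeGroup.of s))) : E n →L[ℂ] E n) y - y‖ ≤ 2 * η * ‖v‖ := by
        rw [e]
        refine (norm_sub_le _ _).trans ?_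
        have := mul_le_mul_of_nonneg_left hxv hη0.le
        linarith
      calc ‖(U n (ι (γ (FreeGroup.of s))) : E n →L[ℂ] E n) y - y‖ ^ 2 ≤ (2 * η * ‖v‖) ^ 2 :=
            pow_le_pow_left₀ (norm_nonneg _) h3 2
        _ = _ := by ring
    have hsum : ∑ s, ‖(ρ n (FreeGroup.of s) : E n →L[ℂ] E n) y - y‖ ^ 2 ≤
        k * (4 * η ^ 2 * ‖v‖ ^ 2) := by
      refine (Finset.sum_le_sum fun s _ => hterm s).trans ?_
      rw [Finset.sum_const, Finset.card_univ, Fintype.card_fin, nsmul_eq_mul]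
    have e2 : (U n h : E n →L[ℂ] E n) v - x = y := by rw [hxy]; abel
    rw [e2]
    apply le_of_pow_le_pow_left₀ two_ne_zero (by positivity)
    have h4 : θ * ‖y‖ ^ 2 ≤ θ * (ε * ‖v‖) ^ 2 := by
      refine (hyb.trans hsum).trans ?_
      have h5 : θ * (ε * ‖v‖) ^ 2 = 4 * (k + 1) * η ^ 2 * ‖v‖ ^ 2 := by rw [hη2]; ring
      rw [h5]
      nlinarith [sq_nonneg (η * ‖v‖)]
    exact le_of_mul_le_mul_left h4 hθ
  refine ⟨V, ?_, hsec, ?_, hfour⟩
  · intro n v hv
    have := hV1 n v hv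
    simpa only [hρ] using this
  -- third property
  intro ε hε
  obtain ⟨δ', hδ'⟩ : ∃ δ' : ℝ, δ' = min (ε / 2) (1 / 2) := ⟨_, rfl⟩
  have hδ0 : 0 < δ' := by rw [hδ']; exact lt_min (half_pos hε) (by norm_num)
  filter_upwards [hfour δ' hδ0] with n hn v hv
  obtain ⟨T, hT⟩ : ∃ T : E n →ₗ[ℂ] E n, ∀ v, T v = (U n h : E n →L[ℂ] E n) v :=
    ⟨((U n h : E n →L[ℂ] E n) : E n →ₗ[ℂ] E n), fun _ => rfl⟩
  have hinj : Function.Injective T := by
    rw [← LinearMap.ker_eq_bot, LinearMap.ker_eq_bot']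
    intro m hm
    rw [hT] at hm
    have := nrm (U n h) m
    rw [hm, norm_zero] at this
    exact norm_eq_zero.1 this.symm
  have hfr : Module.finrank ℂ (V n) = Module.finrank ℂ ((V n).map T) :=
    LinearEquiv.finrank_eq (Submodule.equivMapOfInjective T hinj (V n))
  obtain ⟨w, hw1, hw2⟩ := hS (E n) (V n) ((V n).map T) δ' hδ0.le
    (by rw [hδ']; exact min_le_right _ _) hfr (by
      rintro _ ⟨u, hu, rfl⟩
      obtain ⟨w, hw1, hw2⟩ := hn u hu
      refine ⟨w, hw1, ?_⟩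
      rw [hT, nrm]
      exact hw2) v hv
  obtain ⟨u, hu, rfl⟩ := hw1
  refine ⟨u, hu, ?_⟩
  rw [hT, norm_sub_rev] at hw2
  refine hw2.trans (mul_le_mul_of_nonneg_right ?_ (norm_nonneg _))
  have : δ' ≤ ε / 2 := by rw [hδ']; exact min_le_left _ _
  linarith

end Pool.Agent.N50.MX
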